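import Mathlib
import Pool.Agent.W221.NS.Stm2

/-!
Project ME (helper221), part HYP: from a solution to the hypothesis of the local regularity theorem.
-/

open MeasureTheory Set Metric
open scoped ContDiff ENNReal Topology

namespace Pool.Agent.W327.ME

open H459R3.NS W221.NS

theorem pd_smooth {f : V → ℝ} (hf : ContDiff ℝ ∞ f) (j : Fin 3) : ContDiff ℝ ∞ (pd j f) := by
  have h1 : ContDiff ℝ ∞ (fderiv ℝ f) := hf.fderiv_right (m := ∞) (by simp)
  exact h1.clm_apply contDiff_const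

theorem slice {F : ℝ → V → V}
    (hF : ContDiffOn ℝ ∞ (fun z : ℝ × V => F z.1 z.2) (Ioo (-1) 0 ×ˢ univ)) {t : ℝ}
    (ht : t ∈ Ioo (-1 : ℝ) 0) : ContDiff ℝ ∞ (F t) := by
  rw [← contDiffOn_univ]
  exact hF.comp (contDiff_const.prodMk contDiff_id).contDiffOn (fun x _ => ⟨ht, mem_univ _⟩)

theorem slice1 {F : ℝ → V → ℝ}
    (hF : ContDiffOn ℝ ∞ (fun z : ℝ × V => F z.1 z.2) (Ioo (-1) 0 ×ˢ univ)) {t : ℝ}
    (ht : t ∈ Ioo (-1 : ℝ) 0) : ContDiff ℝ ∞ (F t) := by
  rw [← contDiffOn_univ]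
  exact hF.comp (contDiff_const.prodMk contDiff_id).contDiffOn (fun x _ => ⟨ht, mem_univ _⟩)

theorem dt_smooth1 {F : ℝ → V → ℝ}
    (hF : ContDiffOn ℝ ∞ (fun z : ℝ × V => F z.1 z.2) (Ioo (-1) 0 ×ˢ univ)) {t : ℝ}
    (ht : t ∈ Ioo (-1 : ℝ) 0) : ContDiff ℝ ∞ (fun x => deriv (fun s => F s x) t) := by
  have h1 : ContDiffOn ℝ ∞ (fderiv ℝ (fun z : ℝ × V => F z.1 z.2)) (Ioo (-1) 0 ×ˢ univ) :=
    hF.fderiv_of_isOpen (isOpen_Ioo.prod isOpen_univ) (by simp)
  have h2 : ContDiffOn ℝ ∞ (fun z : ℝ × V => fderiv ℝ (fun z : ℝ × V => F z.1 z.2) z (1, 0))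
      (Ioo (-1) 0 ×ˢ univ) := h1.clm_apply contDiffOn_const
  have h3 : ContDiff ℝ ∞ (fun x : V => fderiv ℝ (fun z : ℝ × V => F z.1 z.2) (t, x) (1, 0)) := by
    rw [← contDiffOn_univ]
    exact h2.comp (contDiff_const.prodMk contDiff_id).contDiffOn (fun x _ => ⟨ht, mem_univ _⟩)
  have e : (fun x => deriv (fun s => F s x) t) =
      fun x : V => fderiv ℝ (fun z : ℝ × V => F z.1 z.2) (t, x) (1, 0) := by
    funext x
    have hmem : Ioo (-1 : ℝ) 0 ×ˢ (univ : Set V) ∈ 𝓝 (t, x) :=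
      prod_mem_nhds (Ioo_mem_nhds ht.1 ht.2) Filter.univ_mem
    have hd : DifferentiableAt ℝ (fun z : ℝ × V => F z.1 z.2) (t, x) :=
      (hF.contDiffAt hmem).differentiableAt (by simp)
    have hc : HasDerivAt (fun s : ℝ => ((s, x) : ℝ × V)) (1, 0) t :=
      (hasDerivAt_id t).prodMk (hasDerivAt_const t x)
    have := hd.hasFDerivAt.comp_hasDerivAt t hc
    exact this.deriv
  rw [e]
  exact h3

theorem dt_smooth {F : ℝ → V → V}
    (hF : ContDiffOn ℝ ∞ (fun z : ℝ × V => F z.1 z.2) (Ioo (-1) 0 ×ˢ univ)) {t : ℝ}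
    (ht : t ∈ Ioo (-1 : ℝ) 0) : ContDiff ℝ ∞ (fun x i => deriv (fun s => F s x i) t) := by
  rw [contDiff_pi]
  intro i
  exact dt_smooth1 (F := fun s x => F s x i) (contDiffOn_pi.1 hF i) ht

theorem nsq_cont {w : V → V} (hw : Continuous w) : Continuous (nsq w) := by
  unfold nsq
  fun_prop

theorem gsq_cont {w : V → V} (hw : ContDiff ℝ ∞ w) : Continuous (gsq w) := by
  unfold gsq
  refine continuous_finsetSum _ fun i _ => continuous_finsetSum _ fun j _ => ?_
  exact ((pd_smooth (contDiff_pi.1 hw i) j).continuous).pow 2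

theorem iob {f : V → ℝ} (hf : Continuous f) (a : V) (ρ : ℝ) : IntegrableOn f (ball a ρ) :=
  (hf.continuousOn.integrableOn_compact (isCompact_closedBall a ρ)).mono_set
    ball_subset_closedBall

theorem gsq_nonneg (w : V → V) (z : V) : 0 ≤ gsq w z := by
  unfold gsq
  positivity

theorem nsq_nonneg (w : V → V) (z : V) : 0 ≤ nsq w z := by
  unfold nsq
  positivity

theorem B2_nonneg (w : V → V) (a : V) (ρ : ℝ) : 0 ≤ B2 a ρ w :=
  integral_nonneg fun z => gsq_nonneg w z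

theorem B2_mono {w : V → V} (hw : ContDiff ℝ ∞ w) {ρ σ : ℝ} (h : ρ ≤ σ) :
    B2 0 ρ w ≤ B2 0 σ w := by
  unfold B2
  exact setIntegral_mono_set (iob (gsq_cont hw) _ _)
    (Filter.Eventually.of_forall fun z => gsq_nonneg w z)
    (Filter.Eventually.of_forall (ball_subset_ball h))

theorem vol4 : (volume (ball (0 : V) 4)).toReal = 512 := by
  rw [Real.volume_pi_ball _ (by norm_num), ENNReal.toReal_ofReal (by positivity)]
  simp
  norm_num

theorem A2_le {w : V → V} (hw : ContDiff ℝ ∞ w) : A2 0 4 w ≤ 257 * √(L4 0 4 w) := by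
  have hL0 : 0 ≤ L4 0 4 w := integral_nonneg fun z => by positivity
  have hs0 := Real.sqrt_nonneg (L4 0 4 w)
  have hss : √(L4 0 4 w) * √(L4 0 4 w) = L4 0 4 w := Real.mul_self_sqrt hL0
  have key : ∀ δ : ℝ, 0 < δ → A2 0 4 w ≤ 257 * √(L4 0 4 w) + δ := by
    intro δ hδ
    set l := √(L4 0 4 w) + δ / 256 with hl
    have hlpos : 0 < l := by positivity
    have h1 : A2 0 4 w ≤ ∫ z in ball (0 : V) 4, (l / 2 + nsq w z ^ 2 * (1 / (2 * l))) := by
      unfold A2
      apply setIntegral_mono (iob (nsq_cont hw.continuous) _ _)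
      · exact iob (by have := nsq_cont hw.continuous; fun_prop) _ _
      · intro z
        have h2 : 0 ≤ (nsq w z - l) ^ 2 := sq_nonneg _
        simp only
        have h3 : nsq w z * (2 * l) ≤ (l / 2 + nsq w z ^ 2 * (1 / (2 * l))) * (2 * l) := by
          have : (l / 2 + nsq w z ^ 2 * (1 / (2 * l))) * (2 * l) = l ^ 2 + nsq w z ^ 2 := by
            field_simp
          rw [this]
          nlinarith
        exact le_of_mul_le_mul_right h3 (by positivity)
    have h4 : ∫ z in ball (0 : V) 4, (l / 2 + nsq w z ^ 2 * (1 / (2 * l))) =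
        l / 2 * 512 + L4 0 4 w * (1 / (2 * l)) := by
      rw [integral_add]
      · rw [setIntegral_const, integral_mul_const]
        unfold L4
        rw [Measure.real, vol4, smul_eq_mul]
        ring
      · exact iob continuous_const _ _
      · exact iob (by have := nsq_cont hw.continuous; fun_prop) _ _
    have h5 : L4 0 4 w * (1 / (2 * l)) ≤ √(L4 0 4 w) / 2 := by
      rw [mul_one_div, div_le_div_iff₀ (by positivity) (by norm_num)]
      have : √(L4 0 4 w) * √(L4 0 4 w) ≤ √(L4 0 4 w) * l :=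
        mul_le_mul_of_nonneg_left (by rw [hl]; linarith [div_pos hδ (by norm_num : (0:ℝ) < 256)]) hs0
      nlinarith
    rw [h4] at h1
    have h6 : l / 2 * 512 = 256 * √(L4 0 4 w) + δ := by rw [hl]; ring
    linarith
  exact le_of_forall_pos_le_add key

/-- the bound for the growth sum -/
theorem grow_bd {Cg : ℝ} (hCg : 0 < Cg) {w : V → V} (hw : ContDiff ℝ ∞ w)
    (h : √(L4 0 (2 ^ 2) w) ≤ Cg * √(8 ^ 2) *
      (∑ j ∈ Finset.range (2 + 2), 2 ^ j * √(B2 0 (2 ^ j) w / 8 ^ j)) ^ 2) :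
    √(L4 0 4 w) ≤ 128 * Cg * B2 0 8 w := by
  have hB0 := B2_nonneg w 0 8
  have h22 : (2 : ℝ) ^ 2 = 4 := by norm_num
  rw [h22] at h
  have h8 : √((8 : ℝ) ^ 2) = 8 := Real.sqrt_sq (by norm_num)
  rw [h8] at h
  have hterm : ∀ j ∈ Finset.range (2 + 2), (2 : ℝ) ^ j * √(B2 0 (2 ^ j) w / 8 ^ j) ≤
      √(B2 0 8 w) := by
    intro j hj
    rw [Finset.mem_range] at hj
    have h1 : B2 0 (2 ^ j) w ≤ B2 0 8 w := by
      apply B2_mono hw
      calc (2 : ℝ) ^ j ≤ 2 ^ 3 := pow_le_pow_right₀ (by norm_num) (by omega)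
        _ = 8 := by norm_num
    have h2 : (2 : ℝ) ^ j = √(4 ^ j) := by
      rw [show (4 : ℝ) ^ j = (2 ^ j) ^ 2 by rw [← pow_mul, mul_comm, pow_mul]; norm_num]
      exact (Real.sqrt_sq (by positivity)).symm
    rw [h2, ← Real.sqrt_mul (by positivity)]
    apply Real.sqrt_le_sqrt
    have h3 : (4 : ℝ) ^ j ≤ 8 ^ j := pow_le_pow_left₀ (by norm_num) (by norm_num) _
    have h4 : √(4 ^ j) = (2 : ℝ) ^ j := h2.symm
    rw [h4]
    rw [mul_div_assoc', div_le_iff₀ (by positivity)]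
    calc (4 : ℝ) ^ j * B2 0 (2 ^ j) w ≤ 8 ^ j * B2 0 8 w :=
          mul_le_mul h3 h1 (B2_nonneg _ _ _) (by positivity)
      _ = B2 0 8 w * 8 ^ j := by ring
  have hsum : ∑ j ∈ Finset.range (2 + 2), (2 : ℝ) ^ j * √(B2 0 (2 ^ j) w / 8 ^ j) ≤
      4 * √(B2 0 8 w) := by
    calc ∑ j ∈ Finset.range (2 + 2), (2 : ℝ) ^ j * √(B2 0 (2 ^ j) w / 8 ^ j) ≤
        ∑ _j ∈ Finset.range (2 + 2), √(B2 0 8 w) := Finset.sum_le_sum hterm
      _ = 4 * √(B2 0 8 w) := by
          rw [Finset.sum_const, Finset.card_range]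
          simp
  have hnn : 0 ≤ ∑ j ∈ Finset.range (2 + 2), (2 : ℝ) ^ j * √(B2 0 (2 ^ j) w / 8 ^ j) :=
    Finset.sum_nonneg fun j _ => by positivity
  calc √(L4 0 4 w) ≤ Cg * 8 *
        (∑ j ∈ Finset.range (2 + 2), 2 ^ j * √(B2 0 (2 ^ j) w / 8 ^ j)) ^ 2 := h
    _ ≤ Cg * 8 * (4 * √(B2 0 8 w)) ^ 2 := by
        apply mul_le_mul_of_nonneg_left _ (by positivity)
        exact pow_le_pow_left₀ hnn hsum 2
    _ = 128 * Cg * B2 0 8 w := by
        rw [mul_pow, Real.sq_sqrt hB0]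
        ring

theorem t_HYP (h1 : S_TSM) (h2 : S_DEC) (h3 : S_DECT) (h4 : S_GROW) : S_HYP := by
  intro g C hg
  obtain ⟨Cg, hCg, hgrow⟩ := h4
  obtain ⟨CD, hCD, hdec⟩ := h2 g C hg
  obtain ⟨CT, hCT, hdect⟩ := h3 g C hg
  set K4 : ℝ := 128 * Cg with hK4
  have hK4pos : 0 < K4 := by positivity
  set C' : ℝ := 1 + 257 * K4 * CD ^ 2 + (1 + CT) * K4 + CT ^ 2 with hC'
  have e1 : 0 < 257 * K4 * CD ^ 2 := by positivity
  have e2 : 0 < (1 + CT) * K4 := by positivity
  have e3 : 0 < CT ^ 2 := by positivity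
  have hC'pos : 0 < C' := by rw [hC']; linarith
  refine ⟨C', hC'pos, ?_⟩
  intro v q hL ε hint hle
  obtain ⟨hWs, hWt⟩ := h1 g C hg v hL.smooth_v
  refine ⟨hL.smooth_v, hWs, ?_, hint.const_mul C', ?_⟩
  · intro t ht
    have hv : ContDiff ℝ ∞ (v t) := slice hL.smooth_v ht
    have hq : ContDiff ℝ ∞ (q t) := slice1 hL.smooth_q ht
    have hN : ContDiff ℝ ∞ (fun x i => deriv (fun s => v s x i) t) := dt_smooth hL.smooth_v ht
    set B := B2 0 8 (v t) with hB
    have hB0 : 0 ≤ B := B2_nonneg _ _ _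
    have hs0 : 0 ≤ √B := Real.sqrt_nonneg B
    have hL4 : √(L4 0 4 (v t)) ≤ K4 * B := grow_bd hCg hv (hgrow (v t) hv (hL.mean t ht) 2)
    have hL40 : 0 ≤ L4 0 4 (v t) := integral_nonneg fun z => by positivity
    have hL4' : L4 0 4 (v t) ≤ (K4 * B) ^ 2 := by
      rw [← Real.sqrt_le_left (by positivity)]
      exact hL4
    have hA2 : A2 0 4 (v t) ≤ 257 * K4 * B := by
      refine (A2_le hv).trans ?_
      calc 257 * √(L4 0 4 (v t)) ≤ 257 * (K4 * B) := by linarith
        _ = 257 * K4 * B := by ring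
    obtain ⟨hW1, hW2, hW3, hW4⟩ := hdec (v t) hv (hL.divfree t ht)
    obtain ⟨P, hP1, hP2, hP3, hP4⟩ := hdect (v t) (fun x i => deriv (fun s => v s x i) t) (q t)
      hv hN hq (hL.divfree t ht) (hL.momentum t ht)
    have hb18 : ball (0 : V) 1 ⊆ ball 0 8 := ball_subset_ball (by norm_num)
    have hb12 : ball (0 : V) 1 ⊆ ball 0 2 := ball_subset_ball (by norm_num)
    have hsq : CD * √(A2 0 4 (v t)) ≤ √(C' * B) := by
      have : CD * √(A2 0 4 (v t)) = √(CD ^ 2 * A2 0 4 (v t)) := by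
        rw [Real.sqrt_mul (by positivity), Real.sqrt_sq hCD.le]
      rw [this]
      apply Real.sqrt_le_sqrt
      calc CD ^ 2 * A2 0 4 (v t) ≤ CD ^ 2 * (257 * K4 * B) :=
            mul_le_mul_of_nonneg_left hA2 (by positivity)
        _ = (257 * K4 * CD ^ 2) * B := by ring
        _ ≤ C' * B := mul_le_mul_of_nonneg_right (by rw [hC']; linarith) hB0
    refine ⟨P, ?_⟩
    refine
      { sv := hv
        sW := hW1
        sN := (dt_smooth hWs ht).continuous
        sP := hP1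
        divv := fun x hx => hL.divfree t ht x (hb18 hx)
        divW := fun x _ => hW2 x
        mean := hL.mean t ht
        grad := ?_
        dD := fun z hz i => ((hW4 z hz i).1).trans hsq
        gD := fun z hz i j => ((hW4 z hz i).2 j).trans hsq
        lapD := fun z hz i => hW3 z (hb12 hz) i
        eqP := hP2
        nP := ?_
        evo := ?_ }
    · calc B2 0 8 (v t) = 1 * B := by rw [one_mul]
        _ ≤ C' * B := mul_le_mul_of_nonneg_right (by rw [hC']; linarith) hB0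
    · refine hP3.trans ?_
      calc CT * L4 0 4 (v t) ≤ CT * (K4 * B) ^ 2 := mul_le_mul_of_nonneg_left hL4' hCT.le
        _ ≤ (1 + CT) ^ 2 * (K4 * B) ^ 2 := by
            apply mul_le_mul_of_nonneg_right _ (by positivity)
            nlinarith
        _ = ((1 + CT) * K4 * B) ^ 2 := by ring
        _ ≤ (C' * B) ^ 2 := by
            apply pow_le_pow_left₀ (by positivity)
            exact mul_le_mul_of_nonneg_right (by rw [hC']; linarith) hB0
    · intro x hx i
      have h5 := hP4 x hx i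
      have h6 : deriv (fun s => TT g (v s) x i) t =
          TT g (fun y i => deriv (fun s => v s y i) t) x i := hWt t ht x i
      show |deriv (fun s => TT g (v s) x i) t + adv (v t) (fun y => v t y i) x -
        lap (fun y => v t y i) x + pd i P x| ≤ √(C' * B) + C' * B
      rw [h6]
      refine h5.trans ?_
      have h7 : √(B2 0 4 (v t)) ≤ √B := Real.sqrt_le_sqrt (B2_mono hv (by norm_num))
      have h8 : CT * √B ≤ √(C' * B) := by
        have : CT * √B = √(CT ^ 2 * B) := by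
          rw [Real.sqrt_mul (by positivity), Real.sqrt_sq hCT.le]
        rw [this]
        apply Real.sqrt_le_sqrt
        exact mul_le_mul_of_nonneg_right (by rw [hC']; linarith) hB0
      have h9 : CT * (K4 * B) ≤ C' * B := by
        calc CT * (K4 * B) = CT * K4 * B := by ring
          _ ≤ C' * B := by
            apply mul_le_mul_of_nonneg_right _ hB0
            rw [hC']
            nlinarith
      calc CT * (√(B2 0 4 (v t)) + √(L4 0 4 (v t))) ≤ CT * (√B + K4 * B) :=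
            mul_le_mul_of_nonneg_left (add_le_add h7 hL4) hCT.le
        _ = CT * √B + CT * (K4 * B) := by ring
        _ ≤ √(C' * B) + C' * B := add_le_add h8 h9
  · rw [integral_const_mul]
    exact hle

end Pool.Agent.W327.ME
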